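import Pool.Agent.H603.AVD.Gen

/-!
# A finite check of the local condition with tables of natural numbers
-/

set_option autoImplicit false

namespace Pool.Agent.H603.AVD

/-- The local condition from finitely many inequalities: `a`, `a'` bound the weights of the triples (of the
nonconstant triples) with a given sum from below, `p`, `p'` those of the pairs from above. -/
theorem good_of_check (n b C M : ℕ) (d F a a' p p' φ : ℕ → ℕ)
    (hM : ∀ x < n, d x ≤ M) (hr : 6 * M + C < b * (C + 1)) (hCb : C < b)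
    (h1 : ∀ x < n, ∀ y < n, ∀ z < n, a (d x + d y + d z) ≤ 2 * (F x + F y + F z) ∧
      ((x = y ∧ y = z) ∨ a' (d x + d y + d z) ≤ 2 * (F x + F y + F z)))
    (h2 : ∀ x < n, ∀ y < n, 3 * (F x + F y) + 1 ≤ p (d x + d y) ∧
      (x = y ∨ 3 * (F x + F y) + 1 ≤ p' (d x + d y)))
    (h3 : ∀ S < 3 * M + 1, ∀ i < 2 * C + 1, ∀ j < 2 * C + 1,
      ¬ (C + b * j ≤ i + 2 * S + b * C ∧ (i + 2 * S + b * C - (C + b * j)) % 3 = 0) ∨
      (p ((i + 2 * S + b * C - (C + b * j)) / 3) = 0 ∨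
        p ((i + 2 * S + b * C - (C + b * j)) / 3) + φ j ≤ a' S + φ i) ∧
      (p' ((i + 2 * S + b * C - (C + b * j)) / 3) = 0 ∨
        p' ((i + 2 * S + b * C - (C + b * j)) / 3) + φ j ≤ a S + φ i))
    (h4 : ∀ x < n, ∀ y < n, ∀ i < 2 * C + 1, ∀ j < 2 * C + 1,
      ¬ (i + 6 * d x + b * C = C + 6 * d y + b * j) ∨ x = y ∨
        6 * F y + φ j < 6 * F x + φ i) :
    Good n b C (fun x : Fin n => (d x : ℤ)) (fun x : Fin n => (F x : ℤ))
      (fun c : ℤ => (φ (c + C).toNat : ℤ)) := by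
  intro x₁ x₂ x₃ x₄ x₅ c c' hc he
  have hb0 : 0 < b := by omega
  have m1 := hM x₁ x₁.2
  have m2 := hM x₂ x₂.2
  have m3 := hM x₃ x₃.2
  have m4 := hM x₄ x₄.2
  have m5 := hM x₅ x₅.2
  obtain ⟨hc1, hc2⟩ := abs_le.1 hc
  have hrZ : (6 : ℤ) * M + C < b * (C + 1) := by exact_mod_cast hr
  have m1' : ((d x₁ : ℕ) : ℤ) ≤ M := by exact_mod_cast m1
  have m2' : ((d x₂ : ℕ) : ℤ) ≤ M := by exact_mod_cast m2
  have m3' : ((d x₃ : ℕ) : ℤ) ≤ M := by exact_mod_cast m3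
  have m4' : ((d x₄ : ℕ) : ℤ) ≤ M := by exact_mod_cast m4
  have m5' : ((d x₅ : ℕ) : ℤ) ≤ M := by exact_mod_cast m5
  dsimp only at he ⊢
  have hbZ : (0 : ℤ) < b := by exact_mod_cast hb0
  have hc3 : c' < C + 1 := by
    by_contra hcon
    push Not at hcon
    have : (b : ℤ) * (C + 1) ≤ b * c' := mul_le_mul_of_nonneg_left hcon hbZ.le
    linarith
  have hc4 : -((C : ℤ) + 1) < c' := by
    by_contra hcon
    push Not at hcon
    have : (b : ℤ) * c' ≤ b * (-(C + 1)) := mul_le_mul_of_nonneg_left hcon hbZ.le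
    linarith
  have hc' : |c'| ≤ C := abs_le.2 ⟨by omega, by omega⟩
  refine ⟨hc', ?_⟩
  obtain ⟨i, hi⟩ : ∃ i : ℕ, i = (c + C).toNat := ⟨_, rfl⟩
  obtain ⟨j, hj⟩ : ∃ j : ℕ, j = (c' + C).toNat := ⟨_, rfl⟩
  have hi' : (i : ℤ) = c + C := by rw [hi, Int.toNat_of_nonneg (by omega)]
  have hj' : (j : ℤ) = c' + C := by rw [hj, Int.toNat_of_nonneg (by omega)]
  have hiC : i < 2 * C + 1 := by omega
  have hjC : j < 2 * C + 1 := by omega
  rw [← hi, ← hj]
  have hec : ((i : ℕ) : ℤ) + 2 * (d x₁ + d x₂ + d x₃) + b * C = C + 3 * (d x₄ + d x₅) + b * j := by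
    rw [hi', hj']
    linear_combination he
  have heN : i + 2 * (d x₁ + d x₂ + d x₃) + b * C = C + 3 * (d x₄ + d x₅) + b * j := by
    exact_mod_cast hec
  have hsub : i + 2 * (d x₁ + d x₂ + d x₃) + b * C - (C + b * j) = 3 * (d x₄ + d x₅) := by omega
  obtain ⟨g1, g2⟩ := (h3 (d x₁ + d x₂ + d x₃) (by omega) i hiC j hjC).resolve_left
    (not_not.2 ⟨by omega, by rw [hsub]; omega⟩)
  rw [hsub, Nat.mul_div_cancel_left _ (by norm_num)] at g1 g2
  obtain ⟨t1, t2⟩ := h1 x₁ x₁.2 x₂ x₂.2 x₃ x₃.2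
  obtain ⟨q1, q2⟩ := h2 x₄ x₄.2 x₅ x₅.2
  have pos : ¬ (x₁ = x₂ ∧ x₂ = x₃ ∧ x₃ = x₄ ∧ x₄ = x₅) →
      3 * (F x₄ + F x₅) + φ j < 2 * (F x₁ + F x₂ + F x₃) + φ i := by
    intro hne
    rcases t2 with ⟨e1, e2⟩ | t2
    · rcases q2 with e3 | q2
      · have e1' : x₁ = x₂ := Fin.ext e1
        have e2' : x₂ = x₃ := Fin.ext e2
        have e3' : x₄ = x₅ := Fin.ext e3
        subst e1' e2' e3'
        rcases (h4 x₁ x₁.2 x₄ x₄.2 i hiC j hjC).resolve_left (not_not.2 (by omega)) with e4 | g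
        · exact absurd ⟨rfl, rfl, Fin.ext e4, rfl⟩ hne
        · omega
      · rcases g2 with g | g
        · omega
        · omega
    · rcases g1 with g | g
      · omega
      · omega
  by_cases hne : x₁ = x₂ ∧ x₂ = x₃ ∧ x₃ = x₄ ∧ x₄ = x₅
  · obtain ⟨rfl, rfl, rfl, rfl⟩ := hne
    have hcb : c = b * c' := by linear_combination he
    have hc0 : c' = 0 := by
      by_contra hcon
      have h5 : (1 : ℤ) ≤ |c'| := Int.one_le_abs hcon
      have h6 : |c| = b * |c'| := by rw [hcb, abs_mul, abs_of_pos hbZ]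
      have h7 : (b : ℤ) * 1 ≤ b * |c'| := mul_le_mul_of_nonneg_left h5 hbZ.le
      have h8 : (C : ℤ) < b := by exact_mod_cast hCb
      linarith
    have hc00 : c = 0 := by rw [hcb, hc0, mul_zero]
    have hij : i = j := by omega
    rw [hij]
    exact ⟨by linarith, fun _ => ⟨rfl, rfl, rfl, rfl⟩⟩
  · have hp := pos hne
    have hpZ : (3 : ℤ) * (F x₄ + F x₅) + φ j < 2 * (F x₁ + F x₂ + F x₃) + φ i := by
      exact_mod_cast hp
    exact ⟨by linarith, fun h0 => absurd h0 (by intro h0; linarith)⟩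

end Pool.Agent.H603.AVD
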