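import Mathlib

/-!
# Digit constructions without solutions of `2 x₁ + 2 x₂ + 2 x₃ = 3 x₄ + 3 x₅`

A set of digits `d 0, …, d (n-1)` in base `b`, weights `F` of the digits and a potential `φ` on the
carries such that every nonconstant local solution increases the weight. Words with the same total
weight then give numbers without nonconstant solutions.
-/

set_option autoImplicit false

namespace Pool.Agent.H603.AVD

open Finset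

/-- the local condition -/
def Good (n b C : ℕ) (d F : Fin n → ℤ) (φ : ℤ → ℤ) : Prop :=
  ∀ x₁ x₂ x₃ x₄ x₅ : Fin n, ∀ c c' : ℤ, |c| ≤ C →
    c + (2 * (d x₁ + d x₂ + d x₃) - 3 * (d x₄ + d x₅)) = b * c' →
    |c'| ≤ C ∧ 0 ≤ 2 * (F x₁ + F x₂ + F x₃) - 3 * (F x₄ + F x₅) + φ c - φ c' ∧
    (2 * (F x₁ + F x₂ + F x₃) - 3 * (F x₄ + F x₅) + φ c - φ c' = 0 →
      x₁ = x₂ ∧ x₂ = x₃ ∧ x₃ = x₄ ∧ x₄ = x₅)

/-- the number with the digits `d (a 0), d (a 1), …` -/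
def val {n : ℕ} (b : ℕ) (d : Fin n → ℤ) {L : ℕ} (a : Fin L → Fin n) : ℤ :=
  ∑ i, d (a i) * (b : ℤ) ^ (i : ℕ)

/-- the total weight -/
def wt {n : ℕ} (F : Fin n → ℤ) {L : ℕ} (a : Fin L → Fin n) : ℤ := ∑ i, F (a i)

theorem val_succ {n : ℕ} (b : ℕ) (d : Fin n → ℤ) {L : ℕ} (a : Fin (L + 1) → Fin n) :
    val b d a = d (a 0) + b * val b d (Fin.tail a) := by
  unfold val
  rw [Fin.sum_univ_succ, Finset.mul_sum]
  simp only [Fin.val_zero, pow_zero, mul_one, Fin.val_succ, Fin.tail]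
  congr 1
  exact Finset.sum_congr rfl fun i _ => by ring

theorem wt_succ {n : ℕ} (F : Fin n → ℤ) {L : ℕ} (a : Fin (L + 1) → Fin n) :
    wt F a = F (a 0) + wt F (Fin.tail a) := by
  unfold wt
  rw [Fin.sum_univ_succ]
  rfl

theorem eq_of_tail {n L : ℕ} {a a' : Fin (L + 1) → Fin n} (h0 : a 0 = a' 0)
    (ht : Fin.tail a = Fin.tail a') : a = a' := by
  rw [← Fin.cons_self_tail a, ← Fin.cons_self_tail a', h0, ht]

theorem key {n b C : ℕ} {d F : Fin n → ℤ} {φ : ℤ → ℤ} (h : Good n b C d F φ) (h0 : φ 0 = 0) :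
    ∀ (L : ℕ) (a₁ a₂ a₃ a₄ a₅ : Fin L → Fin n) (c : ℤ), |c| ≤ C →
      c + (2 * (val b d a₁ + val b d a₂ + val b d a₃) - 3 * (val b d a₄ + val b d a₅)) = 0 →
      0 ≤ 2 * (wt F a₁ + wt F a₂ + wt F a₃) - 3 * (wt F a₄ + wt F a₅) + φ c ∧
      (2 * (wt F a₁ + wt F a₂ + wt F a₃) - 3 * (wt F a₄ + wt F a₅) + φ c = 0 →
        a₁ = a₂ ∧ a₂ = a₃ ∧ a₃ = a₄ ∧ a₄ = a₅) := by
  intro L
  induction L with
  | zero =>
    intro a₁ a₂ a₃ a₄ a₅ c _ he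
    have hc : c = 0 := by simpa [val] using he
    subst hc
    refine ⟨by simp [wt, h0], fun _ => ⟨?_, ?_, ?_, ?_⟩⟩ <;> exact Subsingleton.elim _ _
  | succ L ih =>
    intro a₁ a₂ a₃ a₄ a₅ c hc he
    rw [val_succ, val_succ b d a₂, val_succ b d a₃, val_succ b d a₄, val_succ b d a₅] at he
    rw [wt_succ, wt_succ F a₂, wt_succ F a₃, wt_succ F a₄, wt_succ F a₅]
    set v := 2 * (val b d (Fin.tail a₁) + val b d (Fin.tail a₂) + val b d (Fin.tail a₃)) -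
      3 * (val b d (Fin.tail a₄) + val b d (Fin.tail a₅)) with hv
    obtain ⟨g1, g2, g3⟩ := h (a₁ 0) (a₂ 0) (a₃ 0) (a₄ 0) (a₅ 0) c (-v) hc
      (by rw [hv]; linear_combination he)
    obtain ⟨k1, k2⟩ := ih (Fin.tail a₁) (Fin.tail a₂) (Fin.tail a₃) (Fin.tail a₄) (Fin.tail a₅)
      (-v) g1 (by rw [hv]; ring)
    constructor
    · linarith
    · intro hz
      have e1 : 2 * (F (a₁ 0) + F (a₂ 0) + F (a₃ 0)) - 3 * (F (a₄ 0) + F (a₅ 0)) + φ c -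
          φ (-v) = 0 := by linarith
      have e2 : 2 * (wt F (Fin.tail a₁) + wt F (Fin.tail a₂) + wt F (Fin.tail a₃)) -
          3 * (wt F (Fin.tail a₄) + wt F (Fin.tail a₅)) + φ (-v) = 0 := by linarith
      obtain ⟨p1, p2, p3, p4⟩ := g3 e1
      obtain ⟨q1, q2, q3, q4⟩ := k2 e2
      exact ⟨eq_of_tail p1 q1, eq_of_tail p2 q2, eq_of_tail p3 q3, eq_of_tail p4 q4⟩

theorem val_inj {n b C : ℕ} {d F : Fin n → ℤ} {φ : ℤ → ℤ} (h : Good n b C d F φ) (h0 : φ 0 = 0)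
    {L : ℕ} {a a' : Fin L → Fin n} (he : val b d a = val b d a') : a = a' := by
  obtain ⟨g1, g2⟩ := key h h0 L a a a a' a' 0 (by simp) (by rw [he]; ring)
  obtain ⟨k1, _⟩ := key h h0 L a' a' a' a a 0 (by simp) (by rw [he]; ring)
  rw [h0] at g1 g2 k1
  exact (g2 (by linarith)).2.2.1

theorem val_range {n b : ℕ} {d : Fin n → ℤ} (hd0 : ∀ x, 0 ≤ d x) (hdb : ∀ x, d x < b) :
    ∀ (L : ℕ) (a : Fin L → Fin n), 0 ≤ val b d a ∧ val b d a + 1 ≤ (b : ℤ) ^ L := by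
  intro L
  induction L with
  | zero => intro a; simp [val]
  | succ L ih =>
    intro a
    obtain ⟨h1, h2⟩ := ih (Fin.tail a)
    have hb : (0 : ℤ) ≤ b := by positivity
    rw [val_succ, pow_succ]
    have h3 := hd0 (a 0)
    have h4 := hdb (a 0)
    constructor
    · positivity
    · nlinarith

/-- the sets of numbers -/
theorem exists_set {n b C : ℕ} {d F : Fin n → ℤ} {φ : ℤ → ℤ} (h : Good n b C d F φ)
    (h0 : φ 0 = 0) (hd0 : ∀ x, 0 ≤ d x) (hdb : ∀ x, d x < b) {K : ℕ} (hF0 : ∀ x, 0 ≤ F x)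
    (hFK : ∀ x, F x ≤ K) (L : ℕ) :
    ∃ A : Finset ℕ, A ⊆ Icc 1 (b ^ L) ∧ n ^ L / (L * K + 1) ≤ A.card ∧
      ∀ x₁ ∈ A, ∀ x₂ ∈ A, ∀ x₃ ∈ A, ∀ x₄ ∈ A, ∀ x₅ ∈ A,
        2 * x₁ + 2 * x₂ + 2 * x₃ = 3 * x₄ + 3 * x₅ → x₁ = x₂ ∧ x₂ = x₃ ∧ x₃ = x₄ ∧ x₄ = x₅ := by
  classical
  have hmaps : ∀ a ∈ (univ : Finset (Fin L → Fin n)), wt F a ∈ Icc (0 : ℤ) (L * K) := by
    intro a _
    rw [mem_Icc]
    refine ⟨sum_nonneg fun i _ => hF0 _, ?_⟩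
    calc wt F a ≤ ∑ _i : Fin L, (K : ℤ) := sum_le_sum fun i _ => hFK _
      _ = L * K := by simp
  have hcard : (Icc (0 : ℤ) (L * K)).card = L * K + 1 := by
    rw [Int.card_Icc]
    have : (L : ℤ) * K + 1 - 0 = ((L * K + 1 : ℕ) : ℤ) := by push_cast; ring
    rw [this, Int.toNat_natCast]
  obtain ⟨s, _, hs⟩ := exists_le_card_fiber_of_mul_le_card_of_maps_to hmaps
    ⟨0, by rw [mem_Icc]; exact ⟨le_refl _, by positivity⟩⟩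
    (n := n ^ L / (L * K + 1)) (by
      rw [hcard, card_univ, Fintype.card_fun, Fintype.card_fin, Fintype.card_fin]
      exact Nat.mul_div_le _ _)
  set B : Finset (Fin L → Fin n) := univ.filter fun a => wt F a = s with hB
  set f : (Fin L → Fin n) → ℕ := fun a => (val b d a).toNat + 1 with hf
  have hfv : ∀ a, ((f a : ℕ) : ℤ) = val b d a + 1 := by
    intro a
    rw [hf]
    push_cast
    rw [Int.toNat_of_nonneg (val_range hd0 hdb L a).1]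
  have hinj : Set.InjOn f (B : Set (Fin L → Fin n)) := by
    intro a _ a' _ he
    have h1 : ((f a : ℕ) : ℤ) = ((f a' : ℕ) : ℤ) := by rw [he]
    rw [hfv, hfv] at h1
    exact val_inj h h0 (by linarith)
  refine ⟨B.image f, ?_, ?_, ?_⟩
  · intro x hx
    rw [mem_image] at hx
    obtain ⟨a, _, rfl⟩ := hx
    obtain ⟨h1, h2⟩ := val_range hd0 hdb L a
    rw [mem_Icc]
    constructor
    · have := hfv a
      omega
    · have h3 := hfv a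
      have h4 : ((f a : ℕ) : ℤ) ≤ ((b ^ L : ℕ) : ℤ) := by rw [h3]; push_cast; exact h2
      exact_mod_cast h4
  · rw [card_image_of_injOn hinj]
    exact hs
  · intro x₁ h₁ x₂ h₂ x₃ h₃ x₄ h₄ x₅ h₅ he
    rw [mem_image] at h₁ h₂ h₃ h₄ h₅
    obtain ⟨a₁, b₁, rfl⟩ := h₁
    obtain ⟨a₂, b₂, rfl⟩ := h₂
    obtain ⟨a₃, b₃, rfl⟩ := h₃
    obtain ⟨a₄, b₄, rfl⟩ := h₄
    obtain ⟨a₅, b₅, rfl⟩ := h₅
    rw [hB, mem_filter] at b₁ b₂ b₃ b₄ b₅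
    have he' : 2 * ((f a₁ : ℕ) : ℤ) + 2 * ((f a₂ : ℕ) : ℤ) + 2 * ((f a₃ : ℕ) : ℤ) =
        3 * ((f a₄ : ℕ) : ℤ) + 3 * ((f a₅ : ℕ) : ℤ) := by exact_mod_cast he
    rw [hfv, hfv, hfv, hfv, hfv] at he'
    obtain ⟨_, g2⟩ := key h h0 L a₁ a₂ a₃ a₄ a₅ 0 (by simp) (by linarith)
    obtain ⟨p1, p2, p3, p4⟩ := g2 (by rw [b₁.2, b₂.2, b₃.2, b₄.2, b₅.2, h0]; ring)
    rw [p1, p2, p3, p4]
    exact ⟨rfl, rfl, rfl, rfl⟩

/-- growth -/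
theorem growth {n b : ℕ} (hn : 2 ≤ n) (hb : 2 ≤ b) (K : ℕ) {γ : ℝ} (hγ : γ < Real.logb b n) :
    ∃ N₀ : ℕ, ∀ N : ℕ, N₀ ≤ N →
      (N : ℝ) ^ γ ≤ ((n ^ Nat.log b N / (Nat.log b N * K + 1) : ℕ) : ℝ) := by
  have hbR : (1 : ℝ) < b := by exact_mod_cast (by omega : 1 < b)
  have hnR : (1 : ℝ) < n := by exact_mod_cast (by omega : 1 < n)
  have hpos : 0 < Real.logb b n := Real.logb_pos hbR hnR
  -- we may assume that the exponent is nonnegative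
  obtain ⟨δ, hδ0, hδγ, hδ⟩ : ∃ δ : ℝ, 0 ≤ δ ∧ γ ≤ δ ∧ δ < Real.logb b n :=
    ⟨max γ 0, le_max_right _ _, le_max_left _ _, max_lt hγ hpos⟩
  have hq0 : (0 : ℝ) < (b : ℝ) ^ δ := by positivity
  have hqn : (b : ℝ) ^ δ < n := (Real.lt_logb_iff_rpow_lt hbR (by positivity)).1 hδ
  set q : ℝ := (b : ℝ) ^ δ / n with hq
  have hq1 : q < 1 := by rw [hq, div_lt_one (by positivity)]; exact hqn
  have hqpos : 0 < q := by rw [hq]; positivity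
  have t1 : Filter.Tendsto (fun L : ℕ => (L : ℝ) * q ^ L) Filter.atTop (nhds 0) :=
    tendsto_self_mul_const_pow_of_lt_one hqpos.le hq1
  have t2 : Filter.Tendsto (fun L : ℕ => q ^ L) Filter.atTop (nhds 0) :=
    tendsto_pow_atTop_nhds_zero_of_lt_one hqpos.le hq1
  have hn1 : ((n : ℝ))⁻¹ < 1 := inv_lt_one_of_one_lt₀ hnR
  have hn0 : (0 : ℝ) ≤ ((n : ℝ))⁻¹ := by positivity
  have t3 : Filter.Tendsto (fun L : ℕ => (L : ℝ) * ((n : ℝ))⁻¹ ^ L) Filter.atTop (nhds 0) :=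
    tendsto_self_mul_const_pow_of_lt_one hn0 hn1
  have t4 : Filter.Tendsto (fun L : ℕ => ((n : ℝ))⁻¹ ^ L) Filter.atTop (nhds 0) :=
    tendsto_pow_atTop_nhds_zero_of_lt_one hn0 hn1
  have t5 : Filter.Tendsto (fun L : ℕ => (b : ℝ) ^ δ * ((K : ℝ) * ((L : ℝ) * q ^ L) + q ^ L) +
      ((K : ℝ) * ((L : ℝ) * ((n : ℝ))⁻¹ ^ L) + ((n : ℝ))⁻¹ ^ L)) Filter.atTop (nhds 0) := by
    have := (((t1.const_mul (K : ℝ)).add t2).const_mul ((b : ℝ) ^ δ)).add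
      ((t3.const_mul (K : ℝ)).add t4)
    simpa using this
  obtain ⟨L₀, hL₀⟩ := Filter.eventually_atTop.1 (t5.eventually (gt_mem_nhds one_pos))
  refine ⟨b ^ L₀ + 1, fun N hN => ?_⟩
  set L := Nat.log b N with hL
  have hN1 : 1 ≤ N := by omega
  have hLL : L₀ ≤ L := Nat.le_log_of_pow_le (by omega) (by omega)
  have h1 := hL₀ L hLL
  have hNb : N < b ^ (L + 1) := Nat.lt_pow_succ_log_self (by omega) N
  have hN1R : (1 : ℝ) ≤ N := by exact_mod_cast hN1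
  have hNb' : (N : ℝ) ≤ (b : ℝ) ^ (L + 1) := by exact_mod_cast hNb.le
  have h2 : (N : ℝ) ^ γ ≤ ((b : ℝ) ^ δ) ^ (L + 1) := by
    calc (N : ℝ) ^ γ ≤ (N : ℝ) ^ δ := Real.rpow_le_rpow_of_exponent_le hN1R hδγ
      _ ≤ ((b : ℝ) ^ (L + 1)) ^ δ := Real.rpow_le_rpow (by positivity) hNb' hδ0
      _ = ((b : ℝ) ^ δ) ^ (L + 1) := by
        rw [← Real.rpow_natCast, ← Real.rpow_natCast, ← Real.rpow_mul (by positivity),
          ← Real.rpow_mul (by positivity), mul_comm]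
  have hnL : (0 : ℝ) < (n : ℝ) ^ L := by positivity
  have h3 : (((b : ℝ) ^ δ) ^ (L + 1) + 1) * ((L : ℝ) * K + 1) ≤ (n : ℝ) ^ L := by
    have h4 : (((b : ℝ) ^ δ) ^ (L + 1) + 1) * ((L : ℝ) * K + 1) =
        (n : ℝ) ^ L * ((b : ℝ) ^ δ * ((K : ℝ) * ((L : ℝ) * q ^ L) + q ^ L) +
          ((K : ℝ) * ((L : ℝ) * ((n : ℝ))⁻¹ ^ L) + ((n : ℝ))⁻¹ ^ L)) := by
      rw [hq, div_pow, inv_pow, pow_succ]
      field_simp
    rw [h4]
    calc _ ≤ (n : ℝ) ^ L * 1 := mul_le_mul_of_nonneg_left h1.le hnL.le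
      _ = _ := mul_one _
  have h5 : ((n ^ L : ℕ) : ℝ) / ((L * K + 1 : ℕ) : ℝ) < ((n ^ L / (L * K + 1) : ℕ) : ℝ) + 1 :=
    Nat.lt_floor_add_one _ |>.trans_eq (by rw [Nat.floor_div_eq_div])
  have h6 : ((b : ℝ) ^ δ) ^ (L + 1) + 1 ≤ ((n ^ L : ℕ) : ℝ) / ((L * K + 1 : ℕ) : ℝ) := by
    rw [le_div_iff₀ (by positivity)]
    push_cast
    exact h3
  linarith

/-- the lower bound -/
theorem bound {n b C : ℕ} {d F : Fin n → ℤ} {φ : ℤ → ℤ} (h : Good n b C d F φ)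
    (h0 : φ 0 = 0) (hd0 : ∀ x, 0 ≤ d x) (hdb : ∀ x, d x < b) {K : ℕ} (hF0 : ∀ x, 0 ≤ F x)
    (hFK : ∀ x, F x ≤ K) (hn : 2 ≤ n) (hb : 2 ≤ b) {γ : ℝ} (hγ : γ < Real.logb b n) :
    ∃ N₀ : ℕ, ∀ N : ℕ, N₀ ≤ N → ∃ A : Finset ℕ, A ⊆ Icc 1 N ∧ (N : ℝ) ^ γ ≤ (A.card : ℝ) ∧
      ∀ x₁ ∈ A, ∀ x₂ ∈ A, ∀ x₃ ∈ A, ∀ x₄ ∈ A, ∀ x₅ ∈ A,
        2 * x₁ + 2 * x₂ + 2 * x₃ = 3 * x₄ + 3 * x₅ → x₁ = x₂ ∧ x₂ = x₃ ∧ x₃ = x₄ ∧ x₄ = x₅ := by
  obtain ⟨N₀, hN₀⟩ := growth hn hb K hγ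
  refine ⟨max N₀ 1, fun N hN => ?_⟩
  obtain ⟨A, hA1, hA2, hA3⟩ := exists_set h h0 hd0 hdb hF0 hFK (Nat.log b N)
  refine ⟨A, hA1.trans (Icc_subset_Icc_right (Nat.pow_log_le_self b (by omega))), ?_, hA3⟩
  exact (hN₀ N (by omega)).trans (by exact_mod_cast hA2)

end Pool.Agent.H603.AVD
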