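import Pool.Agent.H603.AVD.Gen

/-!
# The exponent one half

Sets `D` of `2 ^ k` digits in `[0, (4 ^ k - 1) / 3]`: the set for `k + 1` consists of the even numbers `2 x` and the odd
numbers `2 x + (2 w + 1)`, `x` in the set for `k`, `w` its width. In a solution of
`2 x₁ + 2 x₂ + 2 x₃ = 3 x₄ + 3 x₅` the numbers `x₄`, `x₅` have the same parity, so they lie in the same half; a convex weight with
a steep kink between the two halves increases unless the other three numbers are in that half, too.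
-/

set_option autoImplicit false

namespace Pool.Agent.H603.AVD

open Finset

/-- digits with weights such that every nonconstant solution has positive weight -/
structure OB (ι : Type) (w M : ℤ) (d F : ι → ℤ) : Prop where
  d0 : ∀ x, 0 ≤ d x
  dw : ∀ x, d x ≤ w
  F0 : ∀ x, 0 ≤ F x
  FM : ∀ x, F x ≤ M
  sol : ∀ x₁ x₂ x₃ x₄ x₅ : ι, 2 * (d x₁ + d x₂ + d x₃) = 3 * (d x₄ + d x₅) →
    0 ≤ 2 * (F x₁ + F x₂ + F x₃) - 3 * (F x₄ + F x₅) ∧
    (2 * (F x₁ + F x₂ + F x₃) - 3 * (F x₄ + F x₅) = 0 → x₁ = x₂ ∧ x₂ = x₃ ∧ x₃ = x₄ ∧ x₄ = x₅)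

/-- the doubled digits -/
def dd {ι : Type} (w : ℤ) (d : ι → ℤ) (p : Bool × ι) : ℤ :=
  2 * d p.2 + if p.1 then 2 * w + 1 else 0

/-- their weights -/
def FF {ι : Type} (M : ℤ) (d F : ι → ℤ) (p : Bool × ι) : ℤ :=
  F p.2 + if p.1 then (6 * M + 1) * (4 * d p.2 + 1) else 0

theorem OB.double {ι : Type} {w M : ℤ} {d F : ι → ℤ} (h : OB ι w M d F) (hM : 0 ≤ M) :
    OB (Bool × ι) (4 * w + 1) (M + (6 * M + 1) * (4 * w + 1)) (dd w d) (FF M d F) := by
  have hK : 0 < 6 * M + 1 := by linarith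
  refine ⟨?_, ?_, ?_, ?_, ?_⟩
  · rintro ⟨e, x⟩
    have h0 := h.d0 x
    have hw := h.dw x
    unfold dd
    dsimp only
    split_ifs <;> linarith
  · rintro ⟨e, x⟩
    have h0 := h.d0 x
    have hw := h.dw x
    unfold dd
    dsimp only
    split_ifs <;> linarith
  · rintro ⟨e, x⟩
    have h0 := h.d0 x
    have hF := h.F0 x
    unfold FF
    dsimp only
    split_ifs
    · have : 0 ≤ (6 * M + 1) * (4 * d x + 1) := by positivity
      linarith
    · linarith
  · rintro ⟨e, x⟩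
    have h0 := h.d0 x
    have hw := h.dw x
    have hF := h.FM x
    unfold FF
    dsimp only
    split_ifs
    · have : (6 * M + 1) * (4 * d x + 1) ≤ (6 * M + 1) * (4 * w + 1) :=
        mul_le_mul_of_nonneg_left (by linarith) hK.le
      linarith
    · have : 0 ≤ (6 * M + 1) * (4 * w + 1) := mul_nonneg hK.le (by linarith)
      linarith
  · rintro ⟨e₁, x₁⟩ ⟨e₂, x₂⟩ ⟨e₃, x₃⟩ ⟨e₄, x₄⟩ ⟨e₅, x₅⟩ he
    have p1 := h.d0 x₁
    have p2 := h.d0 x₂
    have p3 := h.d0 x₃
    have q1 := h.dw x₁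
    have q2 := h.dw x₂
    have q3 := h.dw x₃
    have f1 := h.F0 x₁
    have f2 := h.F0 x₂
    have f3 := h.F0 x₃
    have f4 := h.F0 x₄
    have f5 := h.F0 x₅
    have g4 := h.FM x₄
    have g5 := h.FM x₅
    have hs := h.sol x₁ x₂ x₃ x₄ x₅
    -- a positive multiple of the large constant beats the old weights
    have big : ∀ t : ℤ, 1 ≤ t → 2 * (FF M d F (e₁, x₁) + FF M d F (e₂, x₂) + FF M d F (e₃, x₃)) -
        3 * (FF M d F (e₄, x₄) + FF M d F (e₅, x₅)) =
        2 * (F x₁ + F x₂ + F x₃) - 3 * (F x₄ + F x₅) + (6 * M + 1) * t →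
        0 < 2 * (FF M d F (e₁, x₁) + FF M d F (e₂, x₂) + FF M d F (e₃, x₃)) -
        3 * (FF M d F (e₄, x₄) + FF M d F (e₅, x₅)) := by
      intro t ht hE
      have h1 : (6 * M + 1) * 1 ≤ (6 * M + 1) * t := mul_le_mul_of_nonneg_left ht hK.le
      rw [hE]
      linarith
    have fin : ∀ t : ℤ, 1 ≤ t → 2 * (FF M d F (e₁, x₁) + FF M d F (e₂, x₂) + FF M d F (e₃, x₃)) -
        3 * (FF M d F (e₄, x₄) + FF M d F (e₅, x₅)) =
        2 * (F x₁ + F x₂ + F x₃) - 3 * (F x₄ + F x₅) + (6 * M + 1) * t →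
        0 ≤ 2 * (FF M d F (e₁, x₁) + FF M d F (e₂, x₂) + FF M d F (e₃, x₃)) -
        3 * (FF M d F (e₄, x₄) + FF M d F (e₅, x₅)) ∧
        (2 * (FF M d F (e₁, x₁) + FF M d F (e₂, x₂) + FF M d F (e₃, x₃)) -
        3 * (FF M d F (e₄, x₄) + FF M d F (e₅, x₅)) = 0 →
        (e₁, x₁) = (e₂, x₂) ∧ (e₂, x₂) = (e₃, x₃) ∧ (e₃, x₃) = (e₄, x₄) ∧ (e₄, x₄) = (e₅, x₅)) := by
      intro t ht hE
      have h1 := big t ht hE
      exact ⟨h1.le, fun h0 => absurd h0 h1.ne'⟩
    unfold dd at he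
    cases e₄ <;> cases e₅
    · -- both in the lower half
      cases e₁ <;> cases e₂ <;> cases e₃ <;> simp only [Bool.false_eq_true, if_false, if_true] at he
      · obtain ⟨h1, h2⟩ := hs (by linarith)
        simp only [FF, Bool.false_eq_true, if_false, add_zero]
        refine ⟨h1, fun h0 => ?_⟩
        obtain ⟨r1, r2, r3, r4⟩ := h2 h0
        rw [r1, r2, r3, r4]
        exact ⟨rfl, rfl, rfl, rfl⟩
      · exact fin (2 * (4 * d x₃ + 1)) (by linarith) (by simp [FF]; ring)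
      · exact fin (2 * (4 * d x₂ + 1)) (by linarith) (by simp [FF]; ring)
      · exact fin (2 * (4 * d x₂ + 1) + 2 * (4 * d x₃ + 1)) (by linarith) (by simp [FF]; ring)
      · exact fin (2 * (4 * d x₁ + 1)) (by linarith) (by simp [FF]; ring)
      · exact fin (2 * (4 * d x₁ + 1) + 2 * (4 * d x₃ + 1)) (by linarith) (by simp [FF]; ring)
      · exact fin (2 * (4 * d x₁ + 1) + 2 * (4 * d x₂ + 1)) (by linarith) (by simp [FF]; ring)
      · exact fin (2 * (4 * d x₁ + 1) + 2 * (4 * d x₂ + 1) + 2 * (4 * d x₃ + 1)) (by linarith)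
          (by simp [FF]; ring)
    · exfalso
      cases e₁ <;> cases e₂ <;> cases e₃ <;>
        simp only [Bool.false_eq_true, if_false, if_true] at he <;> omega
    · exfalso
      cases e₁ <;> cases e₂ <;> cases e₃ <;>
        simp only [Bool.false_eq_true, if_false, if_true] at he <;> omega
    · -- both in the upper half
      cases e₁ <;> cases e₂ <;> cases e₃ <;> simp only [Bool.false_eq_true, if_false, if_true] at he
      · refine fin ((8 * w + 2 - 8 * d x₁) + (8 * w + 2 - 8 * d x₂) + (8 * w + 2 - 8 * d x₃))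
          (by linarith) ?_
        simp only [FF, Bool.false_eq_true, if_false, if_true, add_zero]
        linear_combination (2 * (6 * M + 1)) * he
      · refine fin ((8 * w + 2 - 8 * d x₁) + (8 * w + 2 - 8 * d x₂)) (by linarith) ?_
        simp only [FF, Bool.false_eq_true, if_false, if_true, add_zero]
        linear_combination (2 * (6 * M + 1)) * he
      · refine fin ((8 * w + 2 - 8 * d x₁) + (8 * w + 2 - 8 * d x₃)) (by linarith) ?_
        simp only [FF, Bool.false_eq_true, if_false, if_true, add_zero]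
        linear_combination (2 * (6 * M + 1)) * he
      · refine fin (8 * w + 2 - 8 * d x₁) (by linarith) ?_
        simp only [FF, Bool.false_eq_true, if_false, if_true, add_zero]
        linear_combination (2 * (6 * M + 1)) * he
      · refine fin ((8 * w + 2 - 8 * d x₂) + (8 * w + 2 - 8 * d x₃)) (by linarith) ?_
        simp only [FF, Bool.false_eq_true, if_false, if_true, add_zero]
        linear_combination (2 * (6 * M + 1)) * he
      · refine fin (8 * w + 2 - 8 * d x₂) (by linarith) ?_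
        simp only [FF, Bool.false_eq_true, if_false, if_true, add_zero]
        linear_combination (2 * (6 * M + 1)) * he
      · refine fin (8 * w + 2 - 8 * d x₃) (by linarith) ?_
        simp only [FF, Bool.false_eq_true, if_false, if_true, add_zero]
        linear_combination (2 * (6 * M + 1)) * he
      · have hs' : 2 * (d x₁ + d x₂ + d x₃) = 3 * (d x₄ + d x₅) := by linarith
        obtain ⟨h1, h2⟩ := hs hs'
        have hE : 2 * (FF M d F (true, x₁) + FF M d F (true, x₂) + FF M d F (true, x₃)) -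
            3 * (FF M d F (true, x₄) + FF M d F (true, x₅)) =
            2 * (F x₁ + F x₂ + F x₃) - 3 * (F x₄ + F x₅) := by
          simp only [FF, if_true]
          linear_combination (4 * (6 * M + 1)) * hs'
        rw [hE]
        refine ⟨h1, fun h0 => ?_⟩
        obtain ⟨r1, r2, r3, r4⟩ := h2 h0
        rw [r1, r2, r3, r4]
        exact ⟨rfl, rfl, rfl, rfl⟩

theorem OB.equiv {ι ι' : Type} {w M : ℤ} {d F : ι → ℤ} (h : OB ι w M d F) (e : ι' ≃ ι) :
    OB ι' w M (fun x => d (e x)) (fun x => F (e x)) := by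
  refine ⟨fun x => h.d0 _, fun x => h.dw _, fun x => h.F0 _, fun x => h.FM _, ?_⟩
  intro x₁ x₂ x₃ x₄ x₅ he
  obtain ⟨h1, h2⟩ := h.sol (e x₁) (e x₂) (e x₃) (e x₄) (e x₅) he
  refine ⟨h1, fun h0 => ?_⟩
  obtain ⟨r1, r2, r3, r4⟩ := h2 h0
  exact ⟨e.injective r1, e.injective r2, e.injective r3, e.injective r4⟩

/-- the widths `(4 ^ k - 1) / 3` -/
def wk : ℕ → ℕ
  | 0 => 0
  | k + 1 => 4 * wk k + 1

theorem wk_eq (k : ℕ) : 3 * wk k + 1 = 4 ^ k := by
  induction k with
  | zero => rfl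
  | succ k ih => rw [wk, pow_succ]; omega

theorem exists_OB (k : ℕ) : ∃ (M : ℤ) (d F : Fin (2 ^ k) → ℤ), 0 ≤ M ∧
    OB (Fin (2 ^ k)) (wk k : ℤ) M d F := by
  induction k with
  | zero =>
    refine ⟨0, fun _ => 0, fun _ => 0, le_refl _, fun _ => le_refl _, fun _ => by simp [wk],
      fun _ => le_refl _, fun _ => le_refl _, ?_⟩
    intro x₁ x₂ x₃ x₄ x₅ _
    have : Subsingleton (Fin (2 ^ 0)) := by rw [pow_zero]; infer_instance
    exact ⟨by norm_num, fun _ => ⟨Subsingleton.elim _ _, Subsingleton.elim _ _,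
      Subsingleton.elim _ _, Subsingleton.elim _ _⟩⟩
  | succ k ih =>
    obtain ⟨M, d, F, hM, h⟩ := ih
    have hcard : Fintype.card (Bool × Fin (2 ^ k)) = 2 ^ (k + 1) := by
      rw [Fintype.card_prod, Fintype.card_bool, Fintype.card_fin, pow_succ]
      ring
    have h2 := (h.double hM).equiv (Fintype.equivFinOfCardEq hcard).symm
    have e : ((wk (k + 1) : ℕ) : ℤ) = 4 * (wk k : ℤ) + 1 := by rw [wk]; push_cast; ring
    rw [← e] at h2
    exact ⟨M + (6 * M + 1) * (4 * (wk k : ℤ) + 1), _, _, by positivity, by rw [← e]; exact h2⟩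

theorem good_half {k : ℕ} {M : ℤ} {d F : Fin (2 ^ k) → ℤ} (h : OB (Fin (2 ^ k)) (wk k : ℤ) M d F) :
    Good (2 ^ k) (6 * wk k + 1) 0 d F (fun _ => 0) := by
  intro x₁ x₂ x₃ x₄ x₅ c c' hc he
  have hc0 : c = 0 := by
    have : |c| ≤ 0 := by exact_mod_cast hc
    exact abs_nonpos_iff.1 this
  subst hc0
  have a1 := h.d0 x₁
  have a2 := h.d0 x₂
  have a3 := h.d0 x₃
  have a4 := h.d0 x₄
  have a5 := h.d0 x₅
  have b1 := h.dw x₁
  have b2 := h.dw x₂
  have b3 := h.dw x₃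
  have b4 := h.dw x₄
  have b5 := h.dw x₅
  push_cast at he
  have hw : (0 : ℤ) ≤ wk k := Int.natCast_nonneg _
  have hc'0 : c' = 0 := by
    rcases lt_trichotomy c' 0 with hlt | h0 | hgt
    · exfalso
      have : (6 * (wk k : ℤ) + 1) * c' ≤ (6 * (wk k : ℤ) + 1) * (-1) :=
        mul_le_mul_of_nonneg_left (by omega) (by linarith)
      linarith
    · exact h0
    · exfalso
      have : (6 * (wk k : ℤ) + 1) * 1 ≤ (6 * (wk k : ℤ) + 1) * c' :=
        mul_le_mul_of_nonneg_left (by omega) (by linarith)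
      linarith
  subst hc'0
  obtain ⟨h1, h2⟩ := h.sol x₁ x₂ x₃ x₄ x₅ (by linarith)
  refine ⟨by simp, by linarith, fun h0 => h2 (by linarith)⟩

/-- **The lower bound with every exponent below one half.** -/
theorem half : ∀ γ : ℝ, γ < 1 / 2 → ∃ N₀ : ℕ, ∀ N : ℕ, N₀ ≤ N →
    ∃ A : Finset ℕ, A ⊆ Icc 1 N ∧ (N : ℝ) ^ γ ≤ (A.card : ℝ) ∧
      ∀ x₁ ∈ A, ∀ x₂ ∈ A, ∀ x₃ ∈ A, ∀ x₄ ∈ A, ∀ x₅ ∈ A,
        2 * x₁ + 2 * x₂ + 2 * x₃ = 3 * x₄ + 3 * x₅ → x₁ = x₂ ∧ x₂ = x₃ ∧ x₃ = x₄ ∧ x₄ = x₅ := by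
  intro γ hγ
  obtain ⟨k, hk⟩ := exists_nat_gt (1 / (1 / 2 - γ))
  have hδ : 0 < 1 / 2 - γ := by linarith
  have hk0 : (0 : ℝ) < k := lt_trans (by positivity) hk
  have hk1 : 1 ≤ k := by exact_mod_cast hk0
  obtain ⟨M, d, F, hM, h⟩ := exists_OB k
  have hw := wk_eq k
  have h4 : 4 ≤ 4 ^ k := by
    calc 4 = 4 ^ 1 := by norm_num
      _ ≤ 4 ^ k := Nat.pow_le_pow_right (by norm_num) hk1
  have hn : 2 ≤ 2 ^ k := by
    calc 2 = 2 ^ 1 := by norm_num
      _ ≤ 2 ^ k := Nat.pow_le_pow_right (by norm_num) hk1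
  have hb : 2 ≤ 6 * wk k + 1 := by omega
  have hble : 6 * wk k + 1 ≤ 2 ^ (2 * k + 1) := by
    have e : 2 ^ (2 * k + 1) = 2 * 4 ^ k := by rw [pow_succ, pow_mul]; norm_num; ring
    omega
  refine bound (good_half h) rfl h.d0 (fun x => ?_) (K := M.toNat) h.F0 (fun x => ?_) hn hb ?_
  · have := h.dw x
    push_cast
    have hw0 : (0 : ℤ) ≤ wk k := Int.natCast_nonneg _
    linarith
  · rw [Int.toNat_of_nonneg hM]
    exact h.FM x
  · have hl2 : 0 < Real.log 2 := Real.log_pos (by norm_num)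
    have hbR : (1 : ℝ) < ((6 * wk k + 1 : ℕ) : ℝ) := by exact_mod_cast (by omega : 1 < 6 * wk k + 1)
    have hlb : 0 < Real.log ((6 * wk k + 1 : ℕ) : ℝ) := Real.log_pos hbR
    have hlb2 : Real.log ((6 * wk k + 1 : ℕ) : ℝ) ≤ (2 * k + 1) * Real.log 2 := by
      have h5 : Real.log ((6 * wk k + 1 : ℕ) : ℝ) ≤ Real.log ((2 : ℝ) ^ (2 * k + 1)) :=
        Real.log_le_log (by linarith) (by exact_mod_cast hble)
      rw [Real.log_pow] at h5
      push_cast at h5 ⊢
      exact h5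
    have hln : Real.log ((2 ^ k : ℕ) : ℝ) = k * Real.log 2 := by
      push_cast
      rw [Real.log_pow]
    rw [Real.logb, hln, lt_div_iff₀ hlb]
    have hk2 : 1 < k * (1 / 2 - γ) := by
      rw [div_lt_iff₀ hδ] at hk
      exact hk
    rcases le_or_gt γ 0 with hg | hg
    · have : γ * Real.log ((6 * wk k + 1 : ℕ) : ℝ) ≤ 0 := mul_nonpos_of_nonpos_of_nonneg hg hlb.le
      have h6 : 0 < (k : ℝ) * Real.log 2 := by positivity
      linarith
    · calc γ * Real.log ((6 * wk k + 1 : ℕ) : ℝ) ≤ γ * ((2 * k + 1) * Real.log 2) :=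
          mul_le_mul_of_nonneg_left hlb2 hg.le
        _ = (γ * (2 * k + 1)) * Real.log 2 := by ring
        _ < k * Real.log 2 := by
          apply mul_lt_mul_of_pos_right _ hl2
          nlinarith

end Pool.Agent.H603.AVD
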